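import Mathlib

/-!
Infinitely many positive rational points on `D ^ 3 - B ^ 3 = K` from one point, by duplication and
2-adic valuations.
-/

set_option autoImplicit false

namespace Pool.Agent.H56.SM

abbrev v (x : ℚ) : ℤ := padicValRat 2 x

theorem v_neg (x : ℚ) : v (-x) = v x := padicValRat.neg x

theorem v_add {a b : ℚ} (ha : a ≠ 0) (hb : b ≠ 0) (h : v a < v b) :
    a + b ≠ 0 ∧ v (a + b) = v a := by
  have hab : a + b ≠ 0 := by
    intro h0
    have h1 : b = -a := by linarith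
    rw [h1, v_neg] at h
    exact lt_irrefl _ h
  exact ⟨hab, padicValRat.add_eq_of_lt hab ha hb h⟩

theorem v_unit {u : ℚ} (hu0 : u ≠ 0) (hu : v u = 0) (hu1 : u ≠ 1) : 1 ≤ v (u - 1) := by
  have hdef : v u = (padicValInt 2 u.num : ℤ) - (padicValNat 2 u.den : ℤ) := rfl
  have hden0 : u.den ≠ 0 := u.den_nz
  have hnum0 : u.num ≠ 0 := Rat.num_ne_zero.2 hu0
  have hcop := u.reduced
  have hden : ¬ 2 ∣ u.den := by
    intro h2
    have h3 : 1 ≤ padicValNat 2 u.den := one_le_padicValNat_of_dvd hden0 h2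
    have h4 : 1 ≤ padicValInt 2 u.num := by
      rw [hdef] at hu
      omega
    have h5 : 2 ∣ u.num.natAbs := by
      unfold padicValInt at h4
      exact dvd_of_one_le_padicValNat h4
    have h6 : 2 ∣ Nat.gcd u.num.natAbs u.den := Nat.dvd_gcd h5 h2
    rw [hcop] at h6
    omega
  have h7 : padicValNat 2 u.den = 0 := padicValNat.eq_zero_of_not_dvd hden
  have h8 : padicValInt 2 u.num = 0 := by
    rw [hdef, h7] at hu
    omega
  have hnum : ¬ 2 ∣ u.num.natAbs := by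
    intro h2
    have h9 : 1 ≤ padicValNat 2 u.num.natAbs :=
      one_le_padicValNat_of_dvd (Int.natAbs_ne_zero.2 hnum0) h2
    unfold padicValInt at h8
    omega
  have e : u - 1 = (((u.num - (u.den : ℤ) : ℤ)) : ℚ) / ((u.den : ℕ) : ℚ) := by
    have hd : ((u.den : ℕ) : ℚ) ≠ 0 := by exact_mod_cast hden0
    rw [eq_div_iff hd]
    have := Rat.mul_den_eq_num u
    push_cast
    linarith
  have hne : u.num - (u.den : ℤ) ≠ 0 := by
    intro h0
    apply hu1
    have : u - 1 = 0 := by rw [e, h0]; simp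
    linarith
  have hd : ((u.den : ℕ) : ℚ) ≠ 0 := by exact_mod_cast hden0
  have hq : (((u.num - (u.den : ℤ) : ℤ)) : ℚ) ≠ 0 := by exact_mod_cast hne
  rw [e]
  unfold v
  rw [padicValRat.div hq hd, padicValRat.of_int, padicValRat.of_nat, h7]
  have h10 : 1 ≤ padicValNat 2 (u.num - (u.den : ℤ)).natAbs := by
    apply one_le_padicValNat_of_dvd (Int.natAbs_ne_zero.2 hne)
    omega
  unfold padicValInt
  omega

theorem v_sub {a b : ℚ} (ha : a ≠ 0) (hb : b ≠ 0) (h : v a = v b) (hab : a ≠ b) :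
    v a + 1 ≤ v (a - b) := by
  have hu0 : a / b ≠ 0 := div_ne_zero ha hb
  have hu : v (a / b) = 0 := by
    unfold v at *
    rw [padicValRat.div ha hb]
    omega
  have hu1 : a / b ≠ 1 := by
    intro h1
    exact hab ((div_eq_one_iff_eq hb).1 h1)
  have h1 := v_unit hu0 hu hu1
  have e : a - b = b * (a / b - 1) := by
    field_simp
  have hne : a / b - 1 ≠ 0 := sub_ne_zero.2 hu1
  have h2 : v (a - b) = v b + v (a / b - 1) := by
    rw [e]
    exact padicValRat.mul hb hne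
  omega

def X1 (x y : ℚ) : ℚ := x * (x ^ 3 + 2 * y ^ 3) / (x ^ 3 - y ^ 3)
def Y1 (x y : ℚ) : ℚ := -(y * (2 * x ^ 3 + y ^ 3)) / (x ^ 3 - y ^ 3)

/-- a rational point of `x ^ 3 + y ^ 3 = K` which is not of order at most two or three -/
def Pt (K x y : ℚ) : Prop := x ≠ 0 ∧ y ≠ 0 ∧ x ≠ y ∧ x ^ 3 + y ^ 3 = K

theorem v_two : v 2 = 1 := by
  have := padicValRat.self (p := 2) (by norm_num)
  simpa [v] using this

theorem v_cube {x : ℚ} (_hx : x ≠ 0) : v (x ^ 3) = 3 * v x := by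
  unfold v
  rw [padicValRat.pow]
  norm_num

theorem v_two_cube {x : ℚ} (hx : x ≠ 0) : v (2 * x ^ 3) = 1 + 3 * v x := by
  have h1 : v (2 * x ^ 3) = v 2 + v (x ^ 3) :=
    padicValRat.mul (by norm_num) (pow_ne_zero 3 hx)
  rw [h1, v_two, v_cube hx]

theorem ne_a {x y : ℚ} (hx : x ≠ 0) (hy : y ≠ 0) : x ^ 3 + 2 * y ^ 3 ≠ 0 := by
  intro h
  have h1 : x ^ 3 = -(2 * y ^ 3) := by linarith
  have h2 : v (x ^ 3) = v (2 * y ^ 3) := by rw [h1, v_neg]
  rw [v_cube hx, v_two_cube hy] at h2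
  omega

theorem ne_b {x y : ℚ} (hx : x ≠ 0) (hy : y ≠ 0) : 2 * x ^ 3 + y ^ 3 ≠ 0 := by
  intro h
  exact ne_a hy hx (by linarith)

theorem ne_c {x y : ℚ} (h : x ≠ y) : x ^ 3 - y ^ 3 ≠ 0 := by
  intro h0
  exact h ((Odd.strictMono_pow (by decide : Odd 3)).injective (by
    linarith))

theorem ne_d {x y : ℚ} (hx : x ≠ 0) (hy : y ≠ 0) :
    x ^ 4 + 2 * x ^ 3 * y + 2 * x * y ^ 3 + y ^ 4 ≠ 0 := by
  intro h
  have h1 : (x ^ 2 + x * y + y ^ 2) ^ 2 = 3 * (x * y) ^ 2 := by linear_combination h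
  have hxy : x * y ≠ 0 := mul_ne_zero hx hy
  have hs : x ^ 2 + x * y + y ^ 2 ≠ 0 := by
    intro h0
    rw [h0] at h1
    have : (x * y) ^ 2 = 0 := by linarith
    exact hxy (by simpa using this)
  have : Fact (Nat.Prime 3) := ⟨by norm_num⟩
  have h2 : padicValRat 3 ((x ^ 2 + x * y + y ^ 2) ^ 2) = padicValRat 3 (3 * (x * y) ^ 2) := by
    rw [h1]
  have h3 : padicValRat 3 (3 : ℚ) = 1 := by
    have := padicValRat.self (p := 3) (by norm_num)
    simpa using this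
  rw [padicValRat.pow, padicValRat.mul (by norm_num) (pow_ne_zero 2 hxy), padicValRat.pow,
    h3] at h2
  push_cast at h2
  omega

theorem step_pt {K x y : ℚ} (h : Pt K x y) : Pt K (X1 x y) (Y1 x y) := by
  obtain ⟨hx, hy, hxy, hK⟩ := h
  have hc := ne_c hxy
  refine ⟨?_, ?_, ?_, ?_⟩
  · exact div_ne_zero (mul_ne_zero hx (ne_a hx hy)) hc
  · exact div_ne_zero (neg_ne_zero.2 (mul_ne_zero hy (ne_b hx hy))) hc
  · intro he
    unfold X1 Y1 at he
    rw [div_left_inj' hc] at he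
    exact ne_d hx hy (by linear_combination he)
  · unfold X1 Y1
    rw [div_pow, div_pow, ← add_div, div_eq_iff (pow_ne_zero 3 hc), ← hK]
    ring

/-- the height used to see that the points are distinct -/
def mu (x y : ℚ) : ℤ := if v x = v y then -v x else max (v x) (v y)

theorem mu_swap (x y : ℚ) : mu x y = mu y x := by
  unfold mu
  by_cases h : v x = v y
  · rw [if_pos h, if_pos h.symm, h]
  · rw [if_neg h, if_neg (fun h' => h h'.symm), max_comm]

theorem mu_neg_right (x y : ℚ) : mu x (-y) = mu x y := by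
  unfold mu
  rw [v_neg]

theorem X1_swap (x y : ℚ) : X1 y x = Y1 x y := by
  unfold X1 Y1
  rw [show y ^ 3 - x ^ 3 = -(x ^ 3 - y ^ 3) by ring, div_neg, ← neg_div]
  ring_nf

theorem Y1_swap (x y : ℚ) : Y1 y x = X1 x y := by
  rw [← X1_swap]

theorem v_X1 {x y : ℚ} (hx : x ≠ 0) (hy : y ≠ 0) (hxy : x ≠ y) :
    v (X1 x y) = v x + v (x ^ 3 + 2 * y ^ 3) - v (x ^ 3 - y ^ 3) := by
  unfold X1 v
  rw [padicValRat.div (mul_ne_zero hx (ne_a hx hy)) (ne_c hxy), padicValRat.mul hx (ne_a hx hy)]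

theorem v_Y1 {x y : ℚ} (hx : x ≠ 0) (hy : y ≠ 0) (hxy : x ≠ y) :
    v (Y1 x y) = v y + v (2 * x ^ 3 + y ^ 3) - v (x ^ 3 - y ^ 3) := by
  unfold Y1 v
  rw [padicValRat.div (neg_ne_zero.2 (mul_ne_zero hy (ne_b hx hy))) (ne_c hxy), padicValRat.neg,
    padicValRat.mul hy (ne_b hx hy)]

theorem mu_lt_one {x y : ℚ} (hx : x ≠ 0) (hy : y ≠ 0) (hxy : x ≠ y) (h : v x < v y) :
    mu x y < mu (X1 x y) (Y1 x y) := by
  have a1 : v (x ^ 3 + 2 * y ^ 3) = 3 * v x := by
    have := (v_add (pow_ne_zero 3 hx) (mul_ne_zero (by norm_num : (2 : ℚ) ≠ 0)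
      (pow_ne_zero 3 hy)) (by rw [v_cube hx, v_two_cube hy]; omega)).2
    rw [this, v_cube hx]
  have a2 : v (2 * x ^ 3 + y ^ 3) = 1 + 3 * v x := by
    have := (v_add (mul_ne_zero (by norm_num : (2 : ℚ) ≠ 0) (pow_ne_zero 3 hx))
      (pow_ne_zero 3 hy) (by rw [v_cube hy, v_two_cube hx]; omega)).2
    rw [this, v_two_cube hx]
  have a3 : v (x ^ 3 - y ^ 3) = 3 * v x := by
    have := (v_add (pow_ne_zero 3 hx) (neg_ne_zero.2 (pow_ne_zero 3 hy))
      (by rw [v_neg, v_cube hx, v_cube hy]; omega)).2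
    rw [sub_eq_add_neg, this, v_cube hx]
  have b1 := v_X1 hx hy hxy
  have b2 := v_Y1 hx hy hxy
  rw [a1, a3] at b1
  rw [a2, a3] at b2
  unfold mu
  rw [if_neg (by omega), if_neg (by omega)]
  omega

theorem mu_lt {K x y : ℚ} (h : Pt K x y) : mu x y < mu (X1 x y) (Y1 x y) := by
  obtain ⟨hx, hy, hxy, -⟩ := h
  rcases lt_trichotomy (v x) (v y) with h1 | h1 | h1
  · exact mu_lt_one hx hy hxy h1
  · have a1 : v (x ^ 3 + 2 * y ^ 3) = 3 * v x := by
      have := (v_add (pow_ne_zero 3 hx) (mul_ne_zero (by norm_num : (2 : ℚ) ≠ 0)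
        (pow_ne_zero 3 hy)) (by rw [v_cube hx, v_two_cube hy]; omega)).2
      rw [this, v_cube hx]
    have a2 : v (2 * x ^ 3 + y ^ 3) = 3 * v y := by
      have := (v_add (pow_ne_zero 3 hy) (mul_ne_zero (by norm_num : (2 : ℚ) ≠ 0)
        (pow_ne_zero 3 hx)) (by rw [v_cube hy, v_two_cube hx]; omega)).2
      rw [add_comm, this, v_cube hy]
    have a3 : 3 * v x + 1 ≤ v (x ^ 3 - y ^ 3) := by
      have := v_sub (pow_ne_zero 3 hx) (pow_ne_zero 3 hy) (by rw [v_cube hx, v_cube hy, h1])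
        (fun he => ne_c hxy (by rw [he, sub_self]))
      rw [v_cube hx] at this
      exact this
    have b1 := v_X1 hx hy hxy
    have b2 := v_Y1 hx hy hxy
    rw [a1] at b1
    rw [a2] at b2
    unfold mu
    rw [if_pos h1, if_pos (by omega)]
    omega
  · have := mu_lt_one hy hx hxy.symm h1
    rw [X1_swap x y, Y1_swap x y] at this
    rw [mu_swap x y, mu_swap (X1 x y)]
    exact this

def seq (x0 y0 : ℚ) : ℕ → ℚ × ℚ
  | 0 => (x0, y0)
  | n + 1 => (X1 (seq x0 y0 n).1 (seq x0 y0 n).2, Y1 (seq x0 y0 n).1 (seq x0 y0 n).2)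

theorem seq_pt {K x0 y0 : ℚ} (h : Pt K x0 y0) : ∀ n, Pt K (seq x0 y0 n).1 (seq x0 y0 n).2
  | 0 => h
  | n + 1 => step_pt (seq_pt h n)

theorem seq_mu {K x0 y0 : ℚ} (h : Pt K x0 y0) :
    StrictMono (fun n => mu (seq x0 y0 n).1 (seq x0 y0 n).2) :=
  strictMono_nat_of_lt_succ (fun n => mu_lt (seq_pt h n))

theorem good_or {K x0 y0 : ℚ} (h : Pt K x0 y0) (hK : 0 < K) (n : ℕ) :
    (seq x0 y0 n).1 * (seq x0 y0 n).2 < 0 ∨ (seq x0 y0 (n + 1)).1 * (seq x0 y0 (n + 1)).2 < 0 := by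
  obtain ⟨hx, hy, hxy, hs⟩ := seq_pt h n
  by_cases h0 : (seq x0 y0 n).1 * (seq x0 y0 n).2 < 0
  · exact Or.inl h0
  · right
    have hne := mul_ne_zero hx hy
    have h1 : 0 < (seq x0 y0 n).1 * (seq x0 y0 n).2 :=
      lt_of_le_of_ne (not_lt.1 h0) (Ne.symm hne)
    change X1 _ _ * Y1 _ _ < 0
    set x := (seq x0 y0 n).1
    set y := (seq x0 y0 n).2
    have hxp : 0 < x ∧ 0 < y := by
      rcases pos_and_pos_or_neg_and_neg_of_mul_pos h1 with h2 | h2
      · exact h2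
      · exfalso
        have e1 : x ^ 3 < 0 := Odd.pow_neg (by decide) h2.1
        have e2 : y ^ 3 < 0 := Odd.pow_neg (by decide) h2.2
        linarith
    obtain ⟨px, py⟩ := hxp
    have hc := ne_c hxy
    have e : X1 x y * Y1 x y =
        -(x * y * (x ^ 3 + 2 * y ^ 3) * (2 * x ^ 3 + y ^ 3)) / (x ^ 3 - y ^ 3) ^ 2 := by
      unfold X1 Y1
      rw [div_mul_div_comm]
      ring
    rw [e]
    apply div_neg_of_neg_of_pos
    · have : 0 < x * y * (x ^ 3 + 2 * y ^ 3) * (2 * x ^ 3 + y ^ 3) := by positivity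
      linarith
    · positivity

/-- a good member of the sequence gives a pair of positive rationals -/
theorem good_pair {K x y : ℚ} (h : Pt K x y) (hg : x * y < 0) :
    ∃ D B : ℚ, 0 < D ∧ 0 < B ∧ D ^ 3 - B ^ 3 = K ∧ mu D B = mu x y := by
  obtain ⟨hx, hy, hxy, hs⟩ := h
  rcases lt_or_gt_of_ne hx with h1 | h1
  · have h2 : 0 < y := by
      by_contra h3
      have : 0 ≤ x * y := mul_nonneg_of_nonpos_of_nonpos h1.le (not_lt.1 h3)
      linarith
    refine ⟨y, -x, h2, by linarith, ?_, ?_⟩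
    · rw [← hs]
      ring
    · rw [mu_neg_right, mu_swap]
  · have h2 : y < 0 := by
      by_contra h3
      have : 0 ≤ x * y := mul_nonneg h1.le (not_lt.1 h3)
      linarith
    refine ⟨x, -y, h1, by linarith, ?_, ?_⟩
    · rw [← hs]
      ring
    · rw [mu_neg_right]

theorem cube_inj {x y : ℚ} (h : x ^ 3 = y ^ 3) : x = y :=
  (Odd.strictMono_pow (by decide : Odd 3)).injective h

/-- infinitely many positive points, avoiding a finite set of coordinates -/
theorem many_points {K x0 y0 : ℚ} (h : Pt K x0 y0) (hK : 0 < K) (T : Set ℚ) (hT : T.Finite) :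
    ∃ D B : ℕ → ℚ, (∀ k, 0 < D k ∧ 0 < B k ∧ D k ^ 3 - B k ^ 3 = K ∧ D k ∉ T ∧ B k ∉ T) ∧
      Function.Injective D := by
  classical
  let G : Set ℕ := {n | (seq x0 y0 n).1 * (seq x0 y0 n).2 < 0}
  have hG : G.Infinite := by
    rw [Set.infinite_iff_exists_gt]
    intro a
    rcases good_or h hK (a + 1) with h1 | h1
    · exact ⟨a + 1, h1, by omega⟩
    · exact ⟨a + 1 + 1, h1, by omega⟩
  have hex : ∀ n : ℕ, ∃ p : ℚ × ℚ, n ∈ G → 0 < p.1 ∧ 0 < p.2 ∧ p.1 ^ 3 - p.2 ^ 3 = K ∧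
      mu p.1 p.2 = mu (seq x0 y0 n).1 (seq x0 y0 n).2 := by
    intro n
    by_cases hn : n ∈ G
    · obtain ⟨D, B, h1, h2, h3, h4⟩ := good_pair (seq_pt h n) hn
      exact ⟨(D, B), fun _ => ⟨h1, h2, h3, h4⟩⟩
    · exact ⟨(0, 0), fun h' => absurd h' hn⟩
  choose p hp using hex
  have inj1 : Set.InjOn (fun n => (p n).1) G := by
    intro a ha b hb hab
    have hab' : (p a).1 = (p b).1 := hab
    obtain ⟨-, -, a3, a4⟩ := hp a ha
    obtain ⟨-, -, b3, b4⟩ := hp b hb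
    have e2 : (p a).2 = (p b).2 := by
      apply cube_inj
      rw [hab'] at a3
      linarith
    rw [hab', e2] at a4
    exact (seq_mu h).injective (a4.symm.trans b4)
  have inj2 : Set.InjOn (fun n => (p n).2) G := by
    intro a ha b hb hab
    have hab' : (p a).2 = (p b).2 := hab
    obtain ⟨-, -, a3, a4⟩ := hp a ha
    obtain ⟨-, -, b3, b4⟩ := hp b hb
    have e2 : (p a).1 = (p b).1 := by
      apply cube_inj
      rw [hab'] at a3
      linarith
    rw [hab', e2] at a4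
    exact (seq_mu h).injective (a4.symm.trans b4)
  let Bad : Set ℕ := (G ∩ (fun n => (p n).1) ⁻¹' T) ∪ (G ∩ (fun n => (p n).2) ⁻¹' T)
  have hBad : Bad.Finite := by
    apply Set.Finite.union
    · refine Set.Finite.of_finite_image (f := fun n => (p n).1) (hT.subset ?_)
        (inj1.mono Set.inter_subset_left)
      rintro _ ⟨n, hn, rfl⟩
      exact hn.2
    · refine Set.Finite.of_finite_image (f := fun n => (p n).2) (hT.subset ?_)
        (inj2.mono Set.inter_subset_left)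
      rintro _ ⟨n, hn, rfl⟩
      exact hn.2
  have hG' : (G \ Bad).Infinite := hG.sdiff hBad
  have : Infinite ↥(G \ Bad) := hG'.to_subtype
  let o : ℕ ↪ ↥(G \ Bad) := Infinite.natEmbedding _
  refine ⟨fun k => (p (o k).1).1, fun k => (p (o k).1).2, ?_, ?_⟩
  · intro k
    have hk := (o k).2
    obtain ⟨h1, h2, h3, -⟩ := hp (o k).1 hk.1
    refine ⟨h1, h2, h3, ?_, ?_⟩
    · intro h4
      exact hk.2 (Or.inl ⟨hk.1, h4⟩)
    · intro h4
      exact hk.2 (Or.inr ⟨hk.1, h4⟩)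
  · intro a b hab
    have h1 := inj1 (o a).2.1 (o b).2.1 hab
    exact o.injective (Subtype.ext h1)

end Pool.Agent.H56.SM
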