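import Mathlib
import Pool.Agent.H56.SM.Points

/-!
The positive rational points on `D ^ 3 - B ^ 3 = K` are unbounded as soon as there is one rational
point with coordinates different from zero (and from each other).
-/

set_option autoImplicit false

namespace Pool.Agent.H56.SM

theorem key (h g f c d : ℚ) (hd : d = f * c * (f + c) - h * g * (h + g))
    (rel : h ^ 3 + g ^ 3 = f ^ 3 + c ^ 3) :
    ((f + c) ^ 2 * (f * h - c * g) - (h - g) * d) ^ 3 -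
      ((h + g) ^ 2 * (f * h - c * g) - (c - f) * d) ^ 3 = (h * d) ^ 3 - (c * d) ^ 3 := by
  subst hd
  linear_combination (2 * h^6 * g^3 - h^6 * f^3 + 3 * h^5 * g^4 - 3 * h^5 * g * f^3 + 3 * h^4 * g^2 * f^2 * c
      - 3 * h^4 * g^2 * f * c^2 - h^3 * g^6 + 2 * h^3 * g^3 * f^3 + 3 * h^3 * g^3 * f^2 * c -
      9 * h^3 * g^3 * f * c^2 - 2 * h^3 * g^3 * c^3 - h^3 * f^6 - 3 * h^3 * f^5 * c + 2 * h^3
      * f^3 * c^3 - 6 * h^2 * g^4 * f * c^2 + 6 * h^2 * g * f^4 * c^2 + 9 * h^2 * g * f^3 *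
      c^3 + 3 * h^2 * g * f^2 * c^4 + 3 * h * g^5 * c^3 - 3 * h * g^2 * f^3 * c^3 - 3 * h *
      g^2 * f^2 * c^4 + g^6 * c^3 - 2 * g^3 * f^3 * c^3 + 3 * g^3 * f * c^5 + g^3 * c^6 + f^6
      * c^3 - 3 * f^4 * c^5 - 2 * f^3 * c^6) * rel

/-- two close positive points give a large positive point -/
theorem big {K M M1 e x1 y1 x2 y2 : ℚ} (hK : 0 < K) (h1 : x1 ^ 3 - y1 ^ 3 = K)
    (h2 : x2 ^ 3 - y2 ^ 3 = K) (hy2 : 0 < y2) (hyy : y2 < y1) (hx2 : 0 < x2) (hx1 : 0 < x1)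
    (hM1 : x2 ≤ M1) (hM1' : y1 ≤ M1) (hM : 0 ≤ M) (he : y1 - y2 ≤ e)
    (hKe : 9 * M1 * (M + M1) * e ≤ K) :
    ∃ X Y : ℚ, 0 < X ∧ M < Y ∧ X ^ 3 - Y ^ 3 = K := by
  have lt3 : ∀ {x y : ℚ}, x ^ 3 < y ^ 3 → x < y := fun h =>
    (Odd.strictMono_pow (by decide : Odd 3)).lt_iff_lt.1 h
  have cube : ∀ {x y : ℚ}, 0 < x → x < y → x ^ 3 < y ^ 3 := fun hx hxy =>
    pow_lt_pow_left₀ hxy hx.le (by norm_num)
  have hy1 : 0 < y1 := by linarith
  have hxy1 : y1 < x1 := lt3 (by linarith)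
  have hxy2 : y2 < x2 := lt3 (by linarith)
  have hxx : x2 < x1 := lt3 (by linarith [cube hy2 hyy])
  have hM1p : 0 < M1 := by linarith
  -- x1 - x2 < y1 - y2
  have g1 : (x1 - x2) * (x1 ^ 2 + x1 * x2 + x2 ^ 2) = (y1 - y2) * (y1 ^ 2 + y1 * y2 + y2 ^ 2) := by
    linear_combination h1 - h2
  have g2 : y1 ^ 2 + y1 * y2 + y2 ^ 2 < x1 ^ 2 + x1 * x2 + x2 ^ 2 := by
    have a1 : y1 ^ 2 < x1 ^ 2 := by nlinarith
    have a2 : y1 * y2 < x1 * x2 := mul_lt_mul'' hxy1 hxy2 hy1.le hy2.le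
    have a3 : y2 ^ 2 < x2 ^ 2 := by nlinarith
    linarith
  have g3 : x1 - x2 < y1 - y2 := by
    by_contra hcon
    have a1 : (y1 - y2) * (y1 ^ 2 + y1 * y2 + y2 ^ 2) <
        (y1 - y2) * (x1 ^ 2 + x1 * x2 + x2 ^ 2) := mul_lt_mul_of_pos_left g2 (by linarith)
    have a2 : (y1 - y2) * (x1 ^ 2 + x1 * x2 + x2 ^ 2) ≤
        (x1 - x2) * (x1 ^ 2 + x1 * x2 + x2 ^ 2) :=
      mul_le_mul_of_nonneg_right (not_lt.1 hcon) (by positivity)
    linarith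
  obtain ⟨d, hd⟩ : ∃ d, d = x2 * y1 * (x2 + y1) - x1 * y2 * (x1 + y2) := ⟨_, rfl⟩
  have hd3 : 3 * d = (x2 + y1) ^ 3 - (x1 + y2) ^ 3 := by
    rw [hd]
    linear_combination h1 - h2
  have hdp : 0 < d := by
    have : (x1 + y2) ^ 3 < (x2 + y1) ^ 3 := cube (by linarith) (by linarith)
    linarith
  have hdu : d < x2 * (3 * M1 * e) := by
    have a1 : x2 * y2 * (x2 + y2) < x1 * y2 * (x1 + y2) := by
      have b1 : x2 * y2 < x1 * y2 := mul_lt_mul_of_pos_right hxx hy2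
      exact mul_lt_mul'' b1 (by linarith) (by positivity) (by linarith)
    have a2 : d < x2 * ((y1 - y2) * (x2 + y1 + y2)) := by
      rw [hd]
      nlinarith
    have a3 : (y1 - y2) * (x2 + y1 + y2) ≤ e * (3 * M1) :=
      mul_le_mul he (by linarith) (by linarith) (by linarith)
    have a4 : x2 * ((y1 - y2) * (x2 + y1 + y2)) ≤ x2 * (e * (3 * M1)) :=
      mul_le_mul_of_nonneg_left a3 hx2.le
    linarith
  obtain ⟨A, hA⟩ : ∃ A, A = x2 * x1 - y1 * y2 := ⟨_, rfl⟩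
  have hA1 : x2 * (x1 - y1) < A := by
    rw [hA]
    have : y1 * y2 < y1 * x2 := mul_lt_mul_of_pos_left hxy2 hy1
    nlinarith
  have hK3 : K ≤ 3 * (x1 ^ 2 * (x1 - y1)) := by
    have a1 : K = (x1 - y1) * (x1 ^ 2 + x1 * y1 + y1 ^ 2) := by
      rw [← h1]
      ring
    have a2 : x1 ^ 2 + x1 * y1 + y1 ^ 2 ≤ 3 * x1 ^ 2 := by nlinarith
    have a3 : (x1 - y1) * (x1 ^ 2 + x1 * y1 + y1 ^ 2) ≤ (x1 - y1) * (3 * x1 ^ 2) :=
      mul_le_mul_of_nonneg_left a2 (by linarith)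
    linarith
  have hAp : 0 < A := lt_trans (mul_pos hx2 (by linarith)) hA1
  have hN : x2 * K < 3 * ((x1 + y2) ^ 2 * A) := by
    have a1 : x1 ^ 2 * A ≤ (x1 + y2) ^ 2 * A :=
      mul_le_mul_of_nonneg_right (pow_le_pow_left₀ hx1.le (by linarith) 2) hAp.le
    have a2 : x1 ^ 2 * (x2 * (x1 - y1)) < x1 ^ 2 * A :=
      mul_lt_mul_of_pos_left hA1 (by positivity)
    have a3 : x2 * K ≤ x2 * (3 * (x1 ^ 2 * (x1 - y1))) := mul_le_mul_of_nonneg_left hK3 hx2.le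
    nlinarith
  have hY : (M + y1 - x2) * d < (x1 + y2) ^ 2 * A := by
    have a1 : (M + y1 - x2) * d ≤ (M + M1) * d := mul_le_mul_of_nonneg_right (by linarith) hdp.le
    have a2 : (M + M1) * d ≤ (M + M1) * (x2 * (3 * M1 * e)) :=
      mul_le_mul_of_nonneg_left hdu.le (by linarith)
    have a3 : x2 * (9 * M1 * (M + M1) * e) ≤ x2 * K := mul_le_mul_of_nonneg_left hKe hx2.le
    nlinarith
  have hk := key x1 y2 x2 y1 d hd (by linarith)
  refine ⟨((x2 + y1) ^ 2 * (x2 * x1 - y1 * y2) - (x1 - y2) * d) / d,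
    ((x1 + y2) ^ 2 * (x2 * x1 - y1 * y2) - (y1 - x2) * d) / d, ?_, ?_, ?_⟩
  · have e1 : (((x2 + y1) ^ 2 * (x2 * x1 - y1 * y2) - (x1 - y2) * d) / d) ^ 3 -
        (((x1 + y2) ^ 2 * (x2 * x1 - y1 * y2) - (y1 - x2) * d) / d) ^ 3 = K := by
      rw [div_pow, div_pow, ← sub_div, hk, div_eq_iff (pow_ne_zero 3 hdp.ne'), ← h1]
      ring
    have e2 : M < ((x1 + y2) ^ 2 * (x2 * x1 - y1 * y2) - (y1 - x2) * d) / d := by
      rw [lt_div_iff₀ hdp, ← hA]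
      linarith
    have e3 : 0 < (((x1 + y2) ^ 2 * (x2 * x1 - y1 * y2) - (y1 - x2) * d) / d) ^ 3 :=
      pow_pos (lt_of_le_of_lt hM e2) 3
    exact (Odd.pow_pos_iff (by decide : Odd 3)).1 (by linarith)
  · rw [lt_div_iff₀ hdp, ← hA]
    linarith
  · rw [div_pow, div_pow, ← sub_div, hk, div_eq_iff (pow_ne_zero 3 hdp.ne'), ← h1]
    ring

theorem unbounded {K x0 y0 : ℚ} (h : Pt K x0 y0) (hK : 0 < K) (M0 : ℚ) :
    ∃ D B : ℚ, 0 < D ∧ 0 < B ∧ M0 < B ∧ D ^ 3 - B ^ 3 = K := by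
  by_contra hcon
  obtain ⟨M, hM0, hM⟩ : ∃ M : ℚ, M0 ≤ M ∧ 0 < M := ⟨max M0 1, le_max_left _ _,
    lt_of_lt_of_le one_pos (le_max_right _ _)⟩
  have hB : ∀ D B : ℚ, 0 < D → 0 < B → D ^ 3 - B ^ 3 = K → B ≤ M := by
    intro D B h1 h2 h3
    by_contra h4
    exact hcon ⟨D, B, h1, h2, lt_of_le_of_lt hM0 (not_le.1 h4), h3⟩
  obtain ⟨D, B, hDB, hinj⟩ := many_points h hK ∅ Set.finite_empty
  obtain ⟨M1, hM1⟩ : ∃ M1, M1 = K + M + 1 := ⟨_, rfl⟩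
  have hM1p : 0 < M1 := by linarith
  have hD : ∀ k, D k ≤ M1 := by
    intro k
    obtain ⟨h1, h2, h3, -, -⟩ := hDB k
    have h4 := hB _ _ h1 h2 h3
    have h5 : (B k) ^ 3 ≤ M ^ 3 := pow_le_pow_left₀ h2.le h4 3
    have h6 : K + M ^ 3 < M1 ^ 3 := by
      rw [hM1]
      have : 0 < (K + M + 1) ^ 3 - (K + M ^ 3) := by
        have e : (K + M + 1) ^ 3 - (K + M ^ 3) = K ^ 3 + 3 * K ^ 2 * M + 3 * K * M ^ 2 +
            3 * K ^ 2 + 6 * K * M + 3 * M ^ 2 + 2 * K + 3 * M + 1 := by ring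
        rw [e]
        positivity
      linarith
    have h7 : (D k) ^ 3 < M1 ^ 3 := by linarith
    exact ((Odd.strictMono_pow (by decide : Odd 3)).lt_iff_lt.1 h7).le
  obtain ⟨e, he⟩ : ∃ e, e = K / (9 * M1 * (M + M1)) := ⟨_, rfl⟩
  have hden : 0 < 9 * M1 * (M + M1) := by positivity
  have hep : 0 < e := by
    rw [he]
    exact div_pos hK hden
  have hKe : 9 * M1 * (M + M1) * e ≤ K := by
    rw [he, mul_div_cancel₀ _ hden.ne']
  let F : ℕ → Fin (⌊M / e⌋₊ + 1) := fun k => ⟨⌊B k / e⌋₊, Nat.lt_succ_of_le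
    (Nat.floor_le_floor (div_le_div_of_nonneg_right
      (hB _ _ (hDB k).1 (hDB k).2.1 (hDB k).2.2.1) hep.le))⟩
  obtain ⟨k, l, hkl, hF⟩ := Finite.exists_ne_map_eq_of_infinite F
  have hF' : ⌊B k / e⌋₊ = ⌊B l / e⌋₊ := congrArg Fin.val hF
  have near : ∀ a b : ℚ, 0 < a → 0 < b → ⌊a / e⌋₊ = ⌊b / e⌋₊ → a - b ≤ e := by
    intro a b ha hb hab
    have h1 := Nat.lt_floor_add_one (a / e)
    have h2 := Nat.floor_le (div_pos hb hep).le
    rw [hab] at h1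
    have h3 : a / e < b / e + 1 := by linarith
    have h4 : a < b + e := by
      have := mul_lt_mul_of_pos_right h3 hep
      rw [div_mul_cancel₀ _ hep.ne', add_mul, div_mul_cancel₀ _ hep.ne', one_mul] at this
      exact this
    linarith
  have hBne : B k ≠ B l := by
    intro h0
    apply hkl
    apply hinj
    apply cube_inj
    have h1 := (hDB k).2.2.1
    have h2 := (hDB l).2.2.1
    rw [h0] at h1
    linarith
  have fin : ∀ i j, B j < B i → ⌊B i / e⌋₊ = ⌊B j / e⌋₊ → False := by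
    intro i j hij hf
    obtain ⟨i1, i2, i3, -, -⟩ := hDB i
    obtain ⟨j1, j2, j3, -, -⟩ := hDB j
    obtain ⟨X, Y, hX, hY, hXY⟩ := big hK i3 j3 j2 hij j1 i1 (hD j)
      ((hB _ _ i1 i2 i3).trans (by linarith)) hM.le (near _ _ i2 j2 hf) hKe
    have := hB X Y hX (lt_trans hM hY) hXY
    linarith
  rcases lt_or_gt_of_ne hBne with h1 | h1
  · exact fin l k h1 hF'.symm
  · exact fin k l h1 hF'

end Pool.Agent.H56.SM
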